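import Pool.Agent.N254.CL.Uni

/-!
The inequality for one cell.
-/

set_option autoImplicit false

open MeasureTheory Filter Topology Set

namespace Pool.Agent.N254.CL

open Pool.Agent.W764.FB Pool.Agent.W764.HL

/-- the real coordinate with respect to `x0` -/
noncomputable def crd (x0 x : T) : ℝ := (AddCircle.measurableEquivIoc (1 : ℝ) (-(1 / 2)) (x - x0)).1

lemma crd_meas (x0 : T) : Measurable (crd x0) := by
  unfold crd
  exact measurable_subtype_coe.comp
    ((AddCircle.measurableEquivIoc (1 : ℝ) (-(1 / 2))).measurable.comp (measurable_id.sub_const x0))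

lemma crd_coe (x0 x : T) : ((crd x0 x : ℝ) : T) = x - x0 :=
  AddCircle.coe_equivIoc (p := (1 : ℝ)) (a := -(1 / 2)) (y := x - x0)

lemma crd_mem (x0 x : T) : |crd x0 x| ≤ 1 / 2 := by
  have h := (AddCircle.measurableEquivIoc (1 : ℝ) (-(1 / 2)) (x - x0)).2
  rw [mem_Ioc] at h
  have e : crd x0 x = (AddCircle.measurableEquivIoc (1 : ℝ) (-(1 / 2)) (x - x0)).1 := rfl
  rw [abs_le, e]
  constructor <;> linarith [h.1, h.2]

lemma norm_coe {t : ℝ} (ht : |t| ≤ 1 / 2) : ‖(t : T)‖ = |t| :=
  (AddCircle.norm_coe_eq_abs_iff (1 : ℝ) one_ne_zero).2 (by rw [abs_one]; exact ht)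

lemma abs_crd (x0 x : T) : |crd x0 x| = ‖x - x0‖ := by
  rw [← crd_coe, norm_coe (crd_mem x0 x)]

lemma norm_sub_crd {x0 x y : T} (hx : |crd x0 x| ≤ 1 / 4) (hy : |crd x0 y| ≤ 1 / 4) :
    ‖x - y‖ = |crd x0 x - crd x0 y| := by
  have h1 : x - y = ((crd x0 x - crd x0 y : ℝ) : T) := by
    rw [AddCircle.coe_sub, crd_coe, crd_coe]; abel
  rw [h1]
  refine norm_coe ?_
  have := abs_sub (crd x0 x) (crd x0 y)
  linarith

/-- one of `M` shifted grids has margins of mass at most `1 / M` -/
lemma exists_shift {ν : Measure T} [IsProbabilityMeasure ν] {B : Set T} (hB : MeasurableSet B)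
    {w : T → ℝ} (hw : Measurable w) {M : ℕ} (hM : 2 ≤ M) :
    ∃ i : ℕ, i < M ∧ ν.real {x | x ∈ B ∧ (Int.fract (w x - i / M) < 1 / (2 * M) ∨
      1 - 1 / (2 * M) ≤ Int.fract (w x - i / M))} ≤ ν.real B / M := by
  have hM0 : (0 : ℝ) < M := by
    have : 0 < M := by omega
    exact_mod_cast this
  set N : ℕ → Set T := fun i => {x | x ∈ B ∧ (Int.fract (w x - i / M) < 1 / (2 * M) ∨
      1 - 1 / (2 * M) ≤ Int.fract (w x - i / M))} with hN
  have hmeas : ∀ i, MeasurableSet (N i) := by
    intro i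
    have hf : Measurable fun x => Int.fract (w x - i / M) :=
      measurable_fract.comp (hw.sub_const _)
    exact hB.inter ((measurableSet_lt hf measurable_const).union
      (measurableSet_le measurable_const hf))
  have hkey : ∀ i, ∀ x ∈ N i, ∃ k : ℤ, -(1 / (2 * M)) ≤ w x - i / M - k ∧
      w x - i / M - k < 1 / (2 * M) := by
    intro i x hx
    have h1 : 0 ≤ Int.fract (w x - i / M) := Int.fract_nonneg _
    have h2 : Int.fract (w x - i / M) < 1 := Int.fract_lt_one _
    have h3 : Int.fract (w x - i / M) = w x - i / M - ⌊w x - i / M⌋ := rfl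
    have h4 : (0 : ℝ) < 1 / (2 * M) := by positivity
    rcases hx.2 with h | h
    · exact ⟨⌊w x - i / M⌋, by linarith, by linarith⟩
    · refine ⟨⌊w x - i / M⌋ + 1, ?_, ?_⟩
      · push_cast; linarith
      · push_cast; linarith
  have hdisj : ∀ i ∈ Finset.range M, ∀ j ∈ Finset.range M, i ≠ j → Disjoint (N i) (N j) := by
    intro i hi j hj hij
    rw [Finset.mem_range] at hi hj
    rw [Set.disjoint_left]
    intro x hxi hxj
    obtain ⟨k, h1, h2⟩ := hkey i x hxi
    obtain ⟨l, h3, h4⟩ := hkey j x hxj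
    have h5 : ((i : ℝ) + M * k) - (j + M * l) < 1 := by
      have : (i : ℝ) / M + k - (j / M + l) < 1 / M := by
        have e : (1 : ℝ) / M = 1 / (2 * M) + 1 / (2 * M) := by field_simp; ring
        rw [e]; linarith
      have h6 := mul_lt_mul_of_pos_right this hM0
      have e1 : ((i : ℝ) / M + k - (j / M + l)) * M = ((i : ℝ) + M * k) - (j + M * l) := by
        field_simp
      rw [e1] at h6
      have e2 : (1 : ℝ) / M * M = 1 := by field_simp
      linarith
    have h7 : -1 < ((i : ℝ) + M * k) - (j + M * l) := by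
      have : -(1 / (M : ℝ)) < (i : ℝ) / M + k - (j / M + l) := by
        have e : (1 : ℝ) / M = 1 / (2 * M) + 1 / (2 * M) := by field_simp; ring
        rw [e]; linarith
      have h6 := mul_lt_mul_of_pos_right this hM0
      have e1 : ((i : ℝ) / M + k - (j / M + l)) * M = ((i : ℝ) + M * k) - (j + M * l) := by
        field_simp
      rw [e1] at h6
      have e2 : -(1 / (M : ℝ)) * M = -1 := by field_simp
      linarith
    have h8 : ((i : ℤ) + M * k) - (j + M * l) = 0 := by
      have h9 : ((i : ℤ) + M * k) - (j + M * l) < 1 := by exact_mod_cast h5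
      have h10 : -1 < ((i : ℤ) + M * k) - (j + M * l) := by exact_mod_cast h7
      omega
    have h11 : (i : ℤ) - j = M * (l - k) := by linarith
    have h12 : |(i : ℤ) - j| < M := by
      rw [abs_lt]; constructor <;> omega
    have h13 : (M : ℤ) ∣ (i : ℤ) - j := ⟨_, h11⟩
    have h14 := Int.eq_zero_of_abs_lt_dvd h13 h12
    omega
  have hsum : ∑ i ∈ Finset.range M, ν.real (N i) ≤ ν.real B := by
    rw [← measureReal_biUnion_finset (fun i hi j hj hij => hdisj i hi j hj hij)
      (fun i _ => hmeas i)]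
    refine measureReal_mono (iUnion₂_subset fun i _ => fun x hx => hx.1)
  by_contra hcon
  push Not at hcon
  have h1 : ∑ i ∈ Finset.range M, ν.real B / M < ∑ i ∈ Finset.range M, ν.real (N i) := by
    refine Finset.sum_lt_sum_of_nonempty ⟨0, Finset.mem_range.2 (by omega)⟩ fun i hi => ?_
    exact hcon i (Finset.mem_range.1 hi)
  rw [Finset.sum_const, Finset.card_range, nsmul_eq_mul, mul_div_cancel₀ _ hM0.ne'] at h1
  linarith

open Classical in
/-- the frequency of the visits of the orbit of `x` to an arc along `W` -/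
noncomputable def vf (W : Finset ℕ) (c : T) (r : ℝ) (x : T) : ℝ :=
  ((W.filter fun n => ‖n • x - c‖ ≤ r).card : ℝ) / W.card

lemma vf_nonneg (W : Finset ℕ) (c : T) (r : ℝ) (x : T) : 0 ≤ vf W c r x := by
  unfold vf; positivity

lemma vf_eq (W : Finset ℕ) (c : T) (r : ℝ) (x : T) : vf W c r x =
    (W.card : ℝ)⁻¹ * ∑ n ∈ W, {y : T | ‖n • y - c‖ ≤ r}.indicator (fun _ => (1 : ℝ)) x := by
  classical
  unfold vf
  rw [div_eq_inv_mul, Finset.card_filter]
  push_cast
  congr 1

lemma arc_meas (n : ℕ) (c : T) (r : ℝ) : MeasurableSet {y : T | ‖n • y - c‖ ≤ r} :=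
  (isClosed_le ((continuous_nsmul n).sub continuous_const).norm continuous_const).measurableSet

lemma vf_int (W : Finset ℕ) (c : T) (r : ℝ) (ν : Measure T) [IsFiniteMeasure ν] :
    Integrable (vf W c r) ν := by
  have h : vf W c r = fun x => (W.card : ℝ)⁻¹ *
      ∑ n ∈ W, {y : T | ‖n • y - c‖ ≤ r}.indicator (fun _ => (1 : ℝ)) x := by
    funext x; exact vf_eq W c r x
  rw [h]
  exact (integrable_finset_sum _ fun n _ =>
    (integrable_const 1).indicator (arc_meas n c r)).const_mul _

lemma vf_integral (W : Finset ℕ) (c : T) (r : ℝ) (ν : Measure T) [IsFiniteMeasure ν] :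
    ∫ x, vf W c r x ∂ν = (W.card : ℝ)⁻¹ * ∑ n ∈ W, ν.real {y : T | ‖n • y - c‖ ≤ r} := by
  simp_rw [vf_eq]
  rw [integral_const_mul, integral_finset_sum _ fun n _ =>
    (integrable_const 1).indicator (arc_meas n c r)]
  congr 1
  refine Finset.sum_congr rfl fun n _ => ?_
  rw [integral_indicator (arc_meas n c r), setIntegral_const, smul_eq_mul, mul_one]

/-- a point of a nonempty set with the least frequency -/
lemma exists_least (W : Finset ℕ) (c : T) (r : ℝ) {A : Set T} (hA : A.Nonempty) :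
    ∃ x ∈ A, ∀ y ∈ A, vf W c r x ≤ vf W c r y := by
  classical
  obtain ⟨x, hx, h⟩ := (InvImage.wf (fun x : T => (W.filter fun n => ‖n • x - c‖ ≤ r).card)
    Nat.lt_wfRel.wf).has_min A hA
  refine ⟨x, hx, fun y hy => ?_⟩
  have h1 := h y hy
  have h2 : (W.filter fun n => ‖n • x - c‖ ≤ r).card ≤
      (W.filter fun n => ‖n • y - c‖ ≤ r).card := Nat.le_of_not_lt h1
  unfold vf
  have h3 : ((W.filter fun n => ‖n • x - c‖ ≤ r).card : ℝ) ≤
      ((W.filter fun n => ‖n • y - c‖ ≤ r).card : ℝ) := by exact_mod_cast h2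
  convert div_le_div_of_nonneg_right h3 (Nat.cast_nonneg W.card) using 1

/-- **One cell.** -/
theorem cell {ν : Measure T} [IsProbabilityMeasure ν] {W : Finset ℕ} (hW : W.Nonempty)
    {K ε τ : ℝ} (hK : 1 ≤ K) (hτ : 0 < τ) (hKτ : K * τ ≤ 1 / 4) (hε : 0 ≤ ε) {M : ℕ} (hM : 2 ≤ M)
    (hgood : ∀ m : ℕ, m ≤ 2 * ⌈K⌉₊ + 2 → Good W (K * M) ε (τ / M) m) {B : Set T}
    (hB : MeasurableSet B) (hdiam : ∀ x ∈ B, ∀ y ∈ B, ‖x - y‖ ≤ K * τ) {s : ℝ}
    (hs : ∀ y : T, ν.real (B ∩ Metric.closedBall y (τ / 2)) ≤ s) (c : T) {r : ℝ} (hr0 : 0 ≤ r)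
    (hr : r ≤ 1 / 2) :
    2 * r * (ν.real B - s) - (1 / M + ε) * ν.real B ≤ ∫ x in B, vf W c r x ∂ν := by
  classical
  have hs0 : 0 ≤ s := measureReal_nonneg.trans (hs 0)
  have hM0 : (0 : ℝ) < M := by
    have : 0 < M := by omega
    exact_mod_cast this
  rcases B.eq_empty_or_nonempty with rfl | ⟨x0, hx0⟩
  · simp only [measureReal_empty, zero_sub, mul_neg, mul_zero, sub_zero, Measure.restrict_empty,
      integral_zero_measure]
    have : 0 ≤ 2 * r * s := by positivity
    linarith
  have hcrd : ∀ x ∈ B, |crd x0 x| ≤ K * τ := fun x hx => by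
    rw [abs_crd]; exact hdiam x hx x0 hx0
  set w : T → ℝ := fun x => crd x0 x / τ with hw
  have hwm : Measurable w := (crd_meas x0).div_const τ
  obtain ⟨i, hi, hmar⟩ := exists_shift (ν := ν) hB hwm hM
  have hiM : (i : ℝ) / M < 1 := by
    rw [div_lt_one hM0]; exact_mod_cast hi
  have hiM0 : 0 ≤ (i : ℝ) / M := by positivity
  set N : Set T := {x | x ∈ B ∧ (Int.fract (w x - i / M) < 1 / (2 * M) ∨
      1 - 1 / (2 * M) ≤ Int.fract (w x - i / M))} with hN
  set A : ℤ → Set T := fun l => {x | x ∈ B ∧ ⌊w x - i / M⌋ = l ∧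
    1 / (2 * M) ≤ Int.fract (w x - i / M) ∧ Int.fract (w x - i / M) < 1 - 1 / (2 * M)} with hA
  have hfl : Measurable fun x => ⌊w x - i / M⌋ := Int.measurable_floor.comp (hwm.sub_const _)
  have hfr : Measurable fun x => Int.fract (w x - i / M) :=
    measurable_fract.comp (hwm.sub_const _)
  have hAm : ∀ l, MeasurableSet (A l) := by
    intro l
    refine hB.inter ((hfl (measurableSet_singleton l)).inter
      ((measurableSet_le measurable_const hfr).inter (measurableSet_lt hfr measurable_const)))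
  set L : ℕ := ⌈K⌉₊ with hL
  have hKL : K ≤ L := Nat.le_ceil K
  set S : Finset ℤ := (Finset.Icc (-(L : ℤ) - 1) L).filter fun l => (A l).Nonempty with hS
  have hScard : S.card ≤ 2 * L + 2 := by
    refine (Finset.card_filter_le _ _).trans ?_
    rw [Int.card_Icc]
    omega
  have hwB : ∀ x ∈ B, |w x| ≤ K := by
    intro x hx
    simp only [hw]
    rw [abs_div, abs_of_pos hτ, div_le_iff₀ hτ]
    exact hcrd x hx
  have hmemI : ∀ x ∈ B, ⌊w x - i / M⌋ ∈ Finset.Icc (-(L : ℤ) - 1) L := by
    intro x hx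
    have h1 := abs_le.1 (hwB x hx)
    rw [Finset.mem_Icc]
    constructor
    · rw [Int.le_floor]
      push_cast
      linarith [h1.1]
    · have h2 : w x - i / M < L + 1 := by linarith [h1.2]
      have h3 : ⌊w x - i / M⌋ < (L : ℤ) + 1 := by
        rw [Int.floor_lt]; push_cast; exact h2
      omega
  choose! X hXA hXmin using fun l (hl : (A l).Nonempty) => exists_least W c r hl
  -- separation of the points
  have hsep : ∀ l l' : ℤ, l < l' → ∀ x ∈ A l, ∀ y ∈ A l', τ / M ≤ ‖x - y‖ ∧
      ‖x - y‖ ≤ K * M * (τ / M) := by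
    intro l l' hll x hx y hy
    have e : K * M * (τ / M) = K * τ := by field_simp
    rw [e]
    refine ⟨?_, hdiam x hx.1 y hy.1⟩
    rw [norm_sub_crd (x0 := x0) ((hcrd x hx.1).trans hKτ) ((hcrd y hy.1).trans hKτ)]
    have h1 : Int.fract (w x - i / M) = w x - i / M - ⌊w x - i / M⌋ := rfl
    have h2 : Int.fract (w y - i / M) = w y - i / M - ⌊w y - i / M⌋ := rfl
    have h3 := hx.2.2.2
    have h4 := hy.2.2.1
    rw [h1, hx.2.1] at h3
    rw [h2, hy.2.1] at h4
    have h5 : (l : ℝ) + 1 ≤ l' := by exact_mod_cast hll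
    have h6 : 1 / (M : ℝ) ≤ w y - w x := by
      have e2 : (1 : ℝ) / M = 1 / (2 * M) + 1 / (2 * M) := by field_simp; ring
      rw [e2]; linarith
    have h7 : τ / M ≤ crd x0 y - crd x0 x := by
      have h8 := mul_le_mul_of_nonneg_right h6 hτ.le
      have e3 : (w y - w x) * τ = crd x0 y - crd x0 x := by
        simp only [hw]; field_simp
      rw [e3] at h8
      calc τ / M = 1 / M * τ := by ring
        _ ≤ _ := h8
    rw [abs_sub_comm]
    exact h7.trans (le_abs_self _)
  obtain ⟨α, hα1, hα2, hα3⟩ := good_finset S (hgood S.card hScard) X (by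
    intro l hl l' hl' hne
    have h1 := hXA l (Finset.mem_filter.1 hl).2
    have h2 := hXA l' (Finset.mem_filter.1 hl').2
    rcases lt_or_gt_of_ne hne with h | h
    · exact hsep l l' h _ h1 _ h2
    · rw [norm_sub_rev]
      exact hsep l' l h _ h2 _ h1)
  have hWR : (0 : ℝ) < W.card := by exact_mod_cast hW.card_pos
  have hlow : ∀ l ∈ S, ∀ x ∈ A l, 2 * r * α l - ε ≤ vf W c r x := by
    intro l hl x hx
    refine le_trans ?_ (hXmin l (Finset.mem_filter.1 hl).2 x hx)
    have h1 := hα3 l hl c r hr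
    unfold vf
    rw [le_div_iff₀ hWR]
    convert h1
  -- the masses
  have hmass : ∀ l, ν.real (A l) ≤ s := by
    intro l
    refine le_trans (measureReal_mono ?_) (hs (x0 + ((((i : ℝ) / M + l + 1 / 2) * τ : ℝ) : T)))
    intro x hx
    refine ⟨hx.1, ?_⟩
    rw [Metric.mem_closedBall, dist_eq_norm]
    have e : x - (x0 + ((((i : ℝ) / M + l + 1 / 2) * τ : ℝ) : T)) =
        ((crd x0 x - ((i : ℝ) / M + l + 1 / 2) * τ : ℝ) : T) := by
      rw [AddCircle.coe_sub, crd_coe]; abel
    have h1 : Int.fract (w x - i / M) = w x - i / M - ⌊w x - i / M⌋ := rfl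
    have h3 := hx.2.2.2
    have h4 := hx.2.2.1
    rw [h1, hx.2.1] at h3 h4
    have h5 : (0 : ℝ) < 1 / (2 * M) := by positivity
    have h6 : crd x0 x = w x * τ := by simp only [hw]; field_simp
    have h7 : |crd x0 x - ((i : ℝ) / M + l + 1 / 2) * τ| ≤ τ / 2 := by
      rw [h6, ← sub_mul, abs_mul, abs_of_pos hτ]
      have h8 : |w x - ((i : ℝ) / M + l + 1 / 2)| ≤ 1 / 2 := by
        rw [abs_le]; constructor <;> linarith
      calc _ ≤ 1 / 2 * τ := by gcongr
        _ = τ / 2 := by ring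
    rw [e, norm_coe (h7.trans (by nlinarith))]
    exact h7
  have hdisj : ∀ l ∈ S, ∀ l' ∈ S, l ≠ l' → Disjoint (A l) (A l') := by
    intro l _ l' _ hne
    rw [Set.disjoint_left]
    intro x hx hx'
    exact hne (hx.2.1.symm.trans hx'.2.1)
  have hsub : ∀ l, A l ⊆ B := fun l x hx => hx.1
  have hsumle : ∑ l ∈ S, ν.real (A l) ≤ ν.real B := by
    rw [← measureReal_biUnion_finset (fun i hi j hj hij => hdisj i hi j hj hij)
      (fun i _ => hAm i)]
    exact measureReal_mono (iUnion₂_subset fun i _ => hsub i)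
  have hsumge : ν.real B - ν.real B / M ≤ ∑ l ∈ S, ν.real (A l) := by
    have h1 : B ⊆ N ∪ ⋃ l ∈ S, A l := by
      intro x hx
      by_cases hxN : x ∈ N
      · exact Or.inl hxN
      · right
        have h2 : 1 / (2 * (M : ℝ)) ≤ Int.fract (w x - i / M) ∧
            Int.fract (w x - i / M) < 1 - 1 / (2 * M) := by
          constructor
          · by_contra h
            exact hxN ⟨hx, Or.inl (not_le.1 h)⟩
          · by_contra h
            exact hxN ⟨hx, Or.inr (not_lt.1 h)⟩
        have h3 : x ∈ A ⌊w x - i / M⌋ := ⟨hx, rfl, h2.1, h2.2⟩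
        rw [mem_iUnion₂]
        exact ⟨_, Finset.mem_filter.2 ⟨hmemI x hx, ⟨x, h3⟩⟩, h3⟩
    have h2 : ν.real B ≤ ν.real N + ∑ l ∈ S, ν.real (A l) := by
      refine (measureReal_mono h1).trans ((measureReal_union_le _ _).trans ?_)
      gcongr
      exact measureReal_biUnion_finset_le _ _
    linarith
  -- the comparison function
  set g : T → ℝ := fun x => ∑ l ∈ S, (A l).indicator (fun _ => 2 * r * α l - ε) x with hg
  have hgi : Integrable g (ν.restrict B) :=
    integrable_finset_sum _ fun l _ => (integrable_const _).indicator (hAm l)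
  have hgle : ∀ x, g x ≤ vf W c r x := by
    intro x
    by_cases h : ∃ l ∈ S, x ∈ A l
    · obtain ⟨l, hl, hx⟩ := h
      have e : g x = 2 * r * α l - ε := by
        simp only [hg]
        rw [Finset.sum_eq_single l]
        · rw [indicator_of_mem hx]
        · intro l' hl' hne
          rw [indicator_of_notMem]
          intro hx'
          exact Set.disjoint_left.1 (hdisj l' hl' l hl hne) hx' hx
        · intro h; exact absurd hl h
      rw [e]
      exact hlow l hl x hx
    · push Not at h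
      have e : g x = 0 := by
        simp only [hg]
        exact Finset.sum_eq_zero fun l hl => indicator_of_notMem (h l hl) _
      rw [e]
      exact vf_nonneg _ _ _ _
  have hgint : ∫ x in B, g x ∂ν = ∑ l ∈ S, (2 * r * α l - ε) * ν.real (A l) := by
    simp only [hg]
    rw [integral_finset_sum _ fun l _ => (integrable_const _).indicator (hAm l)]
    refine Finset.sum_congr rfl fun l _ => ?_
    rw [integral_indicator (hAm l), setIntegral_const, smul_eq_mul, mul_comm]
    congr 1
    rw [measureReal_restrict_apply (hAm l), inter_eq_left.2 (hsub l)]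
  have hmono : ∫ x in B, g x ∂ν ≤ ∫ x in B, vf W c r x ∂ν :=
    integral_mono hgi (vf_int W c r _) hgle
  refine le_trans ?_ hmono
  rw [hgint]
  have h1 : ∑ l ∈ S, (2 * r * α l - ε) * ν.real (A l) =
      2 * r * ∑ l ∈ S, ν.real (A l) - 2 * r * ∑ l ∈ S, (1 - α l) * ν.real (A l) -
        ε * ∑ l ∈ S, ν.real (A l) := by
    rw [Finset.mul_sum, Finset.mul_sum, Finset.mul_sum, ← Finset.sum_sub_distrib,
      ← Finset.sum_sub_distrib]
    exact Finset.sum_congr rfl fun l _ => by ring
  have h2 : ∑ l ∈ S, (1 - α l) * ν.real (A l) ≤ s := by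
    calc ∑ l ∈ S, (1 - α l) * ν.real (A l) ≤ ∑ l ∈ S, (1 - α l) * s := by
          refine Finset.sum_le_sum fun l hl => ?_
          have := (hα1 l hl).2
          exact mul_le_mul_of_nonneg_left (hmass l) (by linarith)
      _ = (∑ l ∈ S, (1 - α l)) * s := by rw [Finset.sum_mul]
      _ ≤ 1 * s := by gcongr
      _ = s := one_mul s
  rw [h1]
  have hB0 : 0 ≤ ν.real B := measureReal_nonneg
  have h3 : 2 * r * (ν.real B - ν.real B / M) ≤ 2 * r * ∑ l ∈ S, ν.real (A l) := by gcongr
  have h4 : 2 * r * ∑ l ∈ S, (1 - α l) * ν.real (A l) ≤ 2 * r * s := by gcongr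
  have h5 : ε * ∑ l ∈ S, ν.real (A l) ≤ ε * ν.real B := by gcongr
  have h6 : 2 * r * (ν.real B / M) ≤ 1 * (ν.real B / M) := by
    have : 0 ≤ ν.real B / M := by positivity
    gcongr
    linarith
  have h7 : 1 * (ν.real B / M) = 1 / M * ν.real B := by ring
  nlinarith [h3, h4, h5, h6, h7]

end Pool.Agent.N254.CL
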