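import Pool.Agent.N254.CL.Main

/-!
Branching at one scale, for invariant measures.
-/

set_option autoImplicit false

open MeasureTheory Filter Topology Set
open scoped ENNReal

namespace Pool.Agent.N254.CL

open Pool.Agent.W764.FB Pool.Agent.W764.SH Pool.Agent.W764.HL

lemma mp_pow {n : ℕ} {μ : Measure T} (h : MeasurePreserving (fun x : T => n • x) μ μ) (a : ℕ) :
    MeasurePreserving (fun x : T => (n ^ a) • x) μ μ := by
  have h1 := h.iterate a
  have h2 : (fun x : T => n • x)^[a] = fun x => (n ^ a) • x := by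
    induction a with
    | zero => ext x; simp
    | succ a ih =>
      ext x
      rw [Function.iterate_succ_apply', ih]
      simp only [pow_succ', mul_smul]
      exact h.iterate a
  rwa [h2] at h1

lemma mp_prod {p q : ℕ} {μ : Measure T} (hip : MeasurePreserving (fun x : T => p • x) μ μ)
    (hiq : MeasurePreserving (fun x : T => q • x) μ μ) (a b : ℕ) :
    MeasurePreserving (fun x : T => (p ^ a * q ^ b) • x) μ μ := by
  have h := (mp_pow hip a).comp (mp_pow hiq b)
  have e : (fun x : T => (p ^ a) • x) ∘ (fun x : T => (q ^ b) • x) =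
      fun x => (p ^ a * q ^ b) • x := by
    ext x
    simp only [Function.comp_apply, mul_smul]
  rwa [e] at h

/-- **Branching at one scale: invariant measures.** -/
theorem branch_inv {p q : ℕ} (hp : 2 ≤ p) (hq : 2 ≤ q) (hpq : Nat.Coprime p q) {K : ℝ}
    (hK : 1 ≤ K) {ε : ℝ} (hε : 0 < ε) : ∃ τ0 : ℝ, 0 < τ0 ∧ ∀ μ : Measure T,
      IsProbabilityMeasure μ → MeasurePreserving (fun x : T => p • x) μ μ →
      MeasurePreserving (fun x : T => q • x) μ μ → ∀ τ : ℝ, 0 < τ → τ < τ0 →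
      ∀ (k : ℕ) (B : Fin k → Set T),
      (∀ j, MeasurableSet (B j)) → Pairwise (fun i j => Disjoint (B i) (B j)) → ⋃ j, B j = univ →
      (∀ j, ∀ x ∈ B j, ∀ y ∈ B j, ‖x - y‖ ≤ K * τ) → ∀ s : Fin k → ℝ,
      (∀ j, ∀ y : T, μ.real (B j ∩ Metric.closedBall y (τ / 2)) ≤ s j) →
      ∀ c : T, ∀ r : ℝ, 0 ≤ r → r ≤ 1 / 2 →
        2 * r * (1 - ∑ j, s j) - ε ≤ μ.real (Metric.closedBall c r) := by
  obtain ⟨H0, hH0, h⟩ := branch hp hq hpq hK hε
  obtain ⟨τ0, hτ0, h1⟩ := h H0 le_rfl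
  refine ⟨τ0, hτ0, fun μ hμ hip hiq τ hτ hτ1 k B hBm hBd hBu hdiam s hs c r hr0 hr => ?_⟩
  obtain ⟨hne, h2⟩ := h1 τ hτ hτ1
  have h3 := h2 μ hμ k B hBm hBd hBu hdiam s hs c r hr0 hr
  have hWR : (0 : ℝ) < (win p q (1 / τ) (H0 / τ)).card := by exact_mod_cast hne.card_pos
  have h4 : ∑ n ∈ win p q (1 / τ) (H0 / τ), μ.real {x | ‖n • x - c‖ ≤ r} =
      μ.real (Metric.closedBall c r) * (win p q (1 / τ) (H0 / τ)).card := by
    rw [mul_comm, ← nsmul_eq_mul, ← Finset.sum_const]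
    refine Finset.sum_congr rfl fun n hn => ?_
    rw [mem_win] at hn
    obtain ⟨⟨a, b, rfl⟩, -⟩ := hn
    have h5 := (mp_prod hip hiq a b).measure_preimage
      (Metric.isClosed_closedBall (x := c) (ε := r)).measurableSet.nullMeasurableSet
    have e : {x : T | ‖(p ^ a * q ^ b) • x - c‖ ≤ r} =
        (fun x : T => (p ^ a * q ^ b) • x) ⁻¹' Metric.closedBall c r := by
      ext x
      simp only [mem_setOf_eq, mem_preimage, Metric.mem_closedBall, dist_eq_norm]
    rw [e, measureReal_def, h5, measureReal_def]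
  rw [h4] at h3
  exact le_of_mul_le_mul_right h3 hWR

/-- lower bounds for arcs imply lower bounds for all sets -/
lemma kappa_le {μ : Measure T} [IsProbabilityMeasure μ] {κ : ℝ} (hκ : 0 ≤ κ)
    (h : ∀ c : T, ∀ r : ℝ, 0 ≤ r → r ≤ 1 / 2 → 2 * r * κ ≤ μ.real (Metric.closedBall c r))
    (s : Set T) : ENNReal.ofReal κ * (volume : Measure T) s ≤ μ s := by
  set v := IsUnifLocDoublingMeasure.vitaliFamily (volume : Measure T) 1 with hv
  have h1 := v.measure_le_of_frequently_le (ρ := ENNReal.ofReal κ • (volume : Measure T)) μ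
    Measure.smul_absolutelyContinuous s ?_
  · rwa [Measure.smul_apply, smul_eq_mul] at h1
  · intro x _
    have h2 : Tendsto (fun δ : ℝ => Metric.closedBall x δ) (𝓝[>] 0) (v.filterAt x) :=
      IsUnifLocDoublingMeasure.tendsto_closedBall_filterAt (volume : Measure T) (fun _ => x)
        (fun δ => δ) tendsto_id (by
          filter_upwards [self_mem_nhdsWithin] with δ hδ
          rw [one_mul]
          exact Metric.mem_closedBall_self (le_of_lt hδ))
    refine h2.frequently (Eventually.frequently ?_)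
    have h3 : ∀ᶠ δ : ℝ in 𝓝[>] 0, δ < 1 / 2 :=
      nhdsWithin_le_nhds (gt_mem_nhds (by norm_num))
    filter_upwards [self_mem_nhdsWithin, h3] with δ hδ hδ2
    have hδ0 : 0 < δ := hδ
    rw [Measure.smul_apply, smul_eq_mul, AddCircle.volume_closedBall, min_eq_right (by linarith)]
    have h4 := h x δ hδ0.le hδ2.le
    rw [← ENNReal.ofReal_mul hκ]
    refine (ENNReal.ofReal_le_iff_le_toReal (measure_ne_top _ _)).2 ?_
    have e : κ * (2 * δ) = 2 * δ * κ := by ring
    rw [e]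
    exact h4

/-- an ergodic invariant measure which dominates a multiple of Lebesgue measure is Lebesgue -/
lemma erg_kappa {p q : ℕ} (hp : 2 ≤ p) (hq : 2 ≤ q) (hpq : Nat.Coprime p q) (μ : Measure T)
    [IsProbabilityMeasure μ] (hip : MeasurePreserving (fun x : T => p • x) μ μ)
    (hiq : MeasurePreserving (fun x : T => q • x) μ μ) (herg : JErg p q μ) {κ : ℝ} (hκ : 0 < κ)
    (h : ∀ s : Set T, ENNReal.ofReal κ * (volume : Measure T) s ≤ μ s) : μ = volume := by
  obtain ⟨D, hDm, hDp, hDq, hD, B, hBm, hB0, hB⟩ := decomp hp hq hpq μ hip hiq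
  obtain ⟨D', hD'm, hD'p, hD'q, hD'⟩ := strict_inv hip hiq hDm hDp hDq
  have heq : μ D' = μ D := measure_congr (eventuallyEq_set.2 hD')
  rcases herg D' hD'm hD'p hD'q with h0 | h1
  · exfalso
    rw [heq] at h0
    have hBc : μ Bᶜ = 0 := by
      refine measure_mono_null (t := D ∪ (Dᶜ \ B)) (fun x hx => ?_) (measure_union_null h0 hB0)
      by_cases hxD : x ∈ D
      · exact Or.inl hxD
      · exact Or.inr ⟨hxD, hx⟩
    have hvol : (volume : Measure T) Bᶜ = 0 := by
      have h2 := h Bᶜ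
      rw [hBc] at h2
      have h3 := le_antisymm h2 zero_le
      rcases mul_eq_zero.1 h3 with h4 | h4
      · exact absurd h4 (by simpa using hκ)
      · exact h4
    have hmp : MeasurePreserving (fun x : T => x + hh p 1 1) (volume : Measure T) volume :=
      measurePreserving_add_right _ _
    have hae1 : ∀ᵐ x ∂(volume : Measure T), x ∈ B := by
      rw [ae_iff]; exact hvol
    have hae2 : ∀ᵐ x ∂(volume : Measure T), x + hh p 1 1 ∈ B := hmp.quasiMeasurePreserving.ae hae1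
    obtain ⟨x, hx1, hx2⟩ := (hae1.and hae2).exists
    exact hB x hx1 1 le_rfl (by omega) hx2
  · rw [heq] at h1
    have h2 : μ.restrict D = μ := by
      rw [Measure.restrict_eq_self_of_ae_mem]
      rw [ae_iff]
      have : μ Dᶜ = 0 := (prob_compl_eq_zero_iff hDm).2 h1
      exact this
    rw [← h2, hD, h1, one_smul]

/-- **Concentration at every scale.** -/
theorem concentrated {p q : ℕ} (hp : 2 ≤ p) (hq : 2 ≤ q) (hpq : Nat.Coprime p q)
    (μ : Measure T) [IsProbabilityMeasure μ] (hip : MeasurePreserving (fun x : T => p • x) μ μ)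
    (hiq : MeasurePreserving (fun x : T => q • x) μ μ) (herg : JErg p q μ) (hne : μ ≠ volume)
    {K : ℝ} (hK : 1 ≤ K) {ε : ℝ} (hε : 0 < ε) : ∃ τ0 : ℝ, 0 < τ0 ∧ ∀ τ : ℝ, 0 < τ → τ < τ0 →
      ∀ (k : ℕ) (B : Fin k → Set T),
      (∀ j, MeasurableSet (B j)) → Pairwise (fun i j => Disjoint (B i) (B j)) → ⋃ j, B j = univ →
      (∀ j, ∀ x ∈ B j, ∀ y ∈ B j, ‖x - y‖ ≤ K * τ) → ∃ y : Fin k → T,
        1 - ε ≤ ∑ j, μ.real (B j ∩ Metric.closedBall (y j) (τ / 2)) := by
  wlog hε1 : ε ≤ 1 generalizing ε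
  · obtain ⟨τ0, h0, h⟩ := this one_pos le_rfl
    refine ⟨τ0, h0, fun τ hτ hτ0 k B h1 h2 h3 h4 => ?_⟩
    obtain ⟨y, hy⟩ := h τ hτ hτ0 k B h1 h2 h3 h4
    exact ⟨y, by linarith [not_le.1 hε1]⟩
  have hex : ∃ c : T, ∃ r : ℝ, 0 ≤ r ∧ r ≤ 1 / 2 ∧
      μ.real (Metric.closedBall c r) < 2 * r * (ε / 4) := by
    by_contra hcon
    push Not at hcon
    exact hne (erg_kappa hp hq hpq μ hip hiq herg (κ := ε / 4) (by positivity)
      (kappa_le (by positivity) fun c r hr0 hr => hcon c r hr0 hr))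
  obtain ⟨c, r, hr0, hr, hlt⟩ := hex
  have hrpos : 0 < r := by
    rcases hr0.lt_or_eq with h | h
    · exact h
    · rw [← h] at hlt
      have : 0 ≤ μ.real (Metric.closedBall c 0) := measureReal_nonneg
      simp only [mul_zero, zero_mul] at hlt
      linarith
  obtain ⟨τ0, hτ0, h⟩ := branch_inv hp hq hpq hK (ε := r * ε / 2) (by positivity)
  refine ⟨τ0, hτ0, fun τ hτ hττ k B hBm hBd hBu hdiam => ?_⟩
  -- the suprema
  have hbdd : ∀ j, BddAbove (range fun y : T => μ.real (B j ∩ Metric.closedBall y (τ / 2))) :=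
    fun j => ⟨1, by rintro _ ⟨y, rfl⟩; exact measureReal_le_one⟩
  set s : Fin k → ℝ := fun j => ⨆ y : T, μ.real (B j ∩ Metric.closedBall y (τ / 2)) with hs
  have h1 : ∀ j, ∀ y : T, μ.real (B j ∩ Metric.closedBall y (τ / 2)) ≤ s j :=
    fun j y => le_ciSup (hbdd j) y
  have hs0 : ∀ j, 0 ≤ s j := fun j => measureReal_nonneg.trans (h1 j 0)
  have h2 := h μ inferInstance hip hiq τ hτ hττ k B hBm hBd hBu hdiam s h1 c r hr0 hr
  have h3 : 1 - ε / 2 < ∑ j, s j := by
    by_contra hcon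
    push Not at hcon
    have h4 : 2 * r * (ε / 2) ≤ 2 * r * (1 - ∑ j, s j) := by gcongr; linarith
    nlinarith
  have h5 : ∀ j, ∃ y : T, (1 - ε / 2) * s j ≤ μ.real (B j ∩ Metric.closedBall y (τ / 2)) := by
    intro j
    rcases (hs0 j).lt_or_eq with h6 | h6
    · have h7 : (1 - ε / 2) * s j < s j := by nlinarith
      obtain ⟨y, hy⟩ := exists_lt_of_lt_ciSup h7
      exact ⟨y, hy.le⟩
    · exact ⟨0, by rw [← h6, mul_zero]; exact measureReal_nonneg⟩
  choose y hy using h5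
  refine ⟨y, le_trans ?_ (Finset.sum_le_sum fun j _ => hy j)⟩
  rw [← Finset.mul_sum]
  have h8 : (1 - ε / 2) * (1 - ε / 2) ≤ (1 - ε / 2) * ∑ j, s j := by
    have : 0 ≤ 1 - ε / 2 := by linarith
    gcongr
  nlinarith

end Pool.Agent.N254.CL
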