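import Pool.Agent.N254.CL.Cell
import Pool.Agent.W764.HL.Gen

/-!
Branching at one scale.
-/

set_option autoImplicit false

open MeasureTheory Filter Topology Set
open scoped ENNReal

namespace Pool.Agent.N254.CL

open Pool.Agent.W764.FB Pool.Agent.W764.SH Pool.Agent.W764.HL

/-- the part of a window below `A / τ` is small -/
lemma bottom {p q : ℕ} (hp : 2 ≤ p) (hq : 2 ≤ q) (hpq : Nat.Coprime p q) {A : ℝ} (hA : 1 < A)
    {η : ℝ} (hη : 0 < η) : ∃ H0 : ℝ, 1 < H0 ∧ ∀ H : ℝ, H0 ≤ H → ∃ δ : ℝ, 0 < δ ∧ ∀ τ : ℝ, 0 < τ →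
      τ < δ → (1 - η) * (win p q (1 / τ) (H / τ)).card ≤ ((win p q (A / τ) (H / τ)).card : ℝ) := by
  classical
  have hirr := irr_of_coprime hp hq hpq
  obtain ⟨hlp, hlq⟩ := log_pos' hp hq
  obtain ⟨J, hJ⟩ := exists_nat_ge (2 / η)
  have hJR : (0 : ℝ) < J := lt_of_lt_of_le (by positivity) hJ
  have hJ0 : 0 < J := by exact_mod_cast hJR
  have hlA : 0 < Real.log A := Real.log_pos hA
  refine ⟨Real.exp (2 * J * Real.log A), Real.one_lt_exp_iff.2 (by positivity), fun H hH => ?_⟩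
  have hH0 : 0 < H := (Real.exp_pos _).trans_le hH
  have hH1 : 1 < H := (Real.one_lt_exp_iff.2 (by positivity)).trans_le hH
  have hlH : 2 * J * Real.log A ≤ Real.log H := (Real.le_log_iff_exp_le hH0).2 hH
  obtain ⟨M, hM⟩ := thin hp hq hirr hH1 hJ0 0
  obtain ⟨δ, hδ, hδ2⟩ := card_large hp hq hirr hH1 M
  refine ⟨δ, hδ, fun τ hτ hτδ => ?_⟩
  set W := win p q (1 / τ) (H / τ) with hW
  have h1 : (M : ℝ) ≤ W.card := hδ2 τ hτ hτδ
  have h2 := hM τ hτ (-Real.log τ) (by simp)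
  have h3 : (W.filter fun n : ℕ => ¬ (A / τ ≤ (n : ℝ))).card ≤
      cnt (Real.log p) (Real.log q) (-Real.log τ) (Real.log H / (2 * J)) := by
    rw [← Set.ncard_coe_finset]
    refine (Set.ncard_le_ncard (t := (fun u : ℕ × ℕ => p ^ u.1 * q ^ u.2) ''
      slab (Real.log p) (Real.log q) (-Real.log τ)
        (Real.log H / (2 * J))) ?_ ((slab_finite hlp hlq _ _).image _)).trans
      (Set.ncard_image_le (slab_finite hlp hlq _ _))
    intro n hn
    rw [Finset.mem_coe, Finset.mem_filter, hW, mem_win] at hn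
    obtain ⟨⟨⟨a, b, rfl⟩, h4, h5⟩, h6⟩ := hn
    have hn0 : (0 : ℝ) < ((p ^ a * q ^ b : ℕ) : ℝ) := lt_of_lt_of_le (by positivity) h4
    refine ⟨(a, b), ⟨?_, ?_⟩, rfl⟩
    · show -Real.log τ ≤ a * Real.log p + b * Real.log q
      rw [← log_pow_mul hp hq]
      have h7 := Real.log_le_log (by positivity) h4
      rwa [Real.log_div one_ne_zero hτ.ne', Real.log_one, zero_sub] at h7
    · show a * Real.log p + b * Real.log q < -Real.log τ + _
      rw [← log_pow_mul hp hq]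
      rw [not_le] at h6
      have h7 := Real.log_lt_log hn0 h6
      rw [Real.log_div (by linarith) hτ.ne'] at h7
      have h8 : Real.log A ≤ Real.log H / (2 * J) := by
        rw [le_div_iff₀ (by positivity)]; linarith
      linarith
  have h4 : (J : ℝ) * (W.filter fun n : ℕ => ¬ (A / τ ≤ (n : ℝ))).card ≤ W.card + M := by
    have : J * (W.filter fun n : ℕ => ¬ (A / τ ≤ (n : ℝ))).card ≤ W.card + M :=
      (Nat.mul_le_mul_left _ h3).trans h2
    exact_mod_cast this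
  have h6 : 2 ≤ η * J := by
    rw [div_le_iff₀ hη] at hJ; linarith
  have h7 : ((W.filter fun n : ℕ => ¬ (A / τ ≤ (n : ℝ))).card : ℝ) ≤ η * W.card := by
    have h8 : (J : ℝ) * (W.filter fun n : ℕ => ¬ (A / τ ≤ (n : ℝ))).card ≤ J * (η * W.card) := by
      calc (J : ℝ) * (W.filter fun n : ℕ => ¬ (A / τ ≤ (n : ℝ))).card ≤ 2 * W.card := by linarith
        _ ≤ (η * J) * W.card := by gcongr
        _ = J * (η * W.card) := by ring
    exact le_of_mul_le_mul_left h8 hJR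
  have h8 : W.filter (fun n : ℕ => A / τ ≤ (n : ℝ)) ⊆ win p q (A / τ) (H / τ) := by
    intro n hn
    rw [Finset.mem_filter, hW, mem_win] at hn
    rw [mem_win]
    exact ⟨hn.1.1, hn.2, hn.1.2.2⟩
  have h9 := Finset.card_le_card h8
  have h10 := Finset.card_filter_add_card_filter_not (s := W) (fun n : ℕ => A / τ ≤ (n : ℝ))
  have h11 : ((W.filter fun n : ℕ => A / τ ≤ (n : ℝ)).card : ℝ) +
      (W.filter fun n : ℕ => ¬ (A / τ ≤ (n : ℝ))).card = W.card := by exact_mod_cast h10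
  have h12 : ((W.filter fun n : ℕ => A / τ ≤ (n : ℝ)).card : ℝ) ≤ (win p q (A / τ) (H / τ)).card := by
    exact_mod_cast h9
  linarith

/-- **Branching at one scale.** -/
theorem branch {p q : ℕ} (hp : 2 ≤ p) (hq : 2 ≤ q) (hpq : Nat.Coprime p q) {K : ℝ} (hK : 1 ≤ K)
    {ε : ℝ} (hε : 0 < ε) : ∃ H0 : ℝ, 1 < H0 ∧ ∀ H : ℝ, H0 ≤ H → ∃ τ0 : ℝ, 0 < τ0 ∧ ∀ τ : ℝ,
      0 < τ → τ < τ0 → (win p q (1 / τ) (H / τ)).Nonempty ∧
      ∀ ν : Measure T, IsProbabilityMeasure ν → ∀ (k : ℕ) (B : Fin k → Set T),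
      (∀ j, MeasurableSet (B j)) → Pairwise (fun i j => Disjoint (B i) (B j)) → ⋃ j, B j = univ →
      (∀ j, ∀ x ∈ B j, ∀ y ∈ B j, ‖x - y‖ ≤ K * τ) → ∀ s : Fin k → ℝ,
      (∀ j, ∀ y : T, ν.real (B j ∩ Metric.closedBall y (τ / 2)) ≤ s j) →
      ∀ c : T, ∀ r : ℝ, 0 ≤ r → r ≤ 1 / 2 →
        (2 * r * (1 - ∑ j, s j) - ε) * (win p q (1 / τ) (H / τ)).card ≤
          ∑ n ∈ win p q (1 / τ) (H / τ), ν.real {x | ‖n • x - c‖ ≤ r} := by
  classical
  obtain ⟨M0, hM0⟩ := exists_nat_ge (4 / ε)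
  set M : ℕ := M0 + 2 with hMdef
  have hM2 : 2 ≤ M := by omega
  have hMR : (0 : ℝ) < M := by
    have : 0 < M := by omega
    exact_mod_cast this
  have hM1 : (1 : ℝ) < M := by
    have : 1 < M := by omega
    exact_mod_cast this
  have hMε : 1 / (M : ℝ) ≤ ε / 4 := by
    have h1 : (M0 : ℝ) ≤ M := by rw [hMdef]; push_cast; linarith
    rw [div_le_iff₀ hMR]
    rw [div_le_iff₀ hε] at hM0
    nlinarith
  obtain ⟨H1, hH1, h1⟩ := cluster_unif hp hq hpq (K := K * M) (by nlinarith) (ε := ε / 4)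
    (by positivity) (2 * ⌈K⌉₊ + 2)
  obtain ⟨H2, hH2, h2⟩ := bottom hp hq hpq (A := (M : ℝ)) hM1 (η := ε / 4) (by positivity)
  refine ⟨max (H1 * M) H2, lt_of_lt_of_le hH2 (le_max_right _ _), fun H hH => ?_⟩
  have hHa : H1 ≤ H / M := by
    rw [le_div_iff₀ hMR]; exact (le_max_left _ _).trans hH
  have hHb : H2 ≤ H := (le_max_right _ _).trans hH
  obtain ⟨δ1, hδ1, h3⟩ := h1 (H / M) hHa
  obtain ⟨δ2, hδ2, h4⟩ := h2 H hHb
  have hK0 : 0 < K := by linarith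
  refine ⟨min (min δ1 δ2) (1 / (4 * K)), by positivity, fun τ hτ hτ0 => ?_⟩
  have hτ1 : τ < δ1 := hτ0.trans_le ((min_le_left _ _).trans (min_le_left _ _))
  have hτ2 : τ < δ2 := hτ0.trans_le ((min_le_left _ _).trans (min_le_right _ _))
  have hτ3 : τ < 1 / (4 * K) := hτ0.trans_le (min_le_right _ _)
  have hKτ : K * τ ≤ 1 / 4 := by
    rw [lt_div_iff₀ (by positivity)] at hτ3
    linarith
  have hτM : τ / M < δ1 := (div_le_self hτ.le hM1.le).trans_lt hτ1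
  obtain ⟨hne, hgood⟩ := h3 (τ / M) (by positivity) hτM
  have e1 : 1 / (τ / (M : ℝ)) = M / τ := by field_simp
  have e2 : H / M / (τ / (M : ℝ)) = H / τ := by field_simp
  rw [e1, e2] at hne hgood
  have hcard := h4 τ hτ hτ2
  set W' := win p q ((M : ℝ) / τ) (H / τ) with hW'
  set W := win p q (1 / τ) (H / τ) with hW
  have hsub : W' ⊆ W := by
    intro n hn
    rw [hW', mem_win] at hn
    rw [hW, mem_win]
    refine ⟨hn.1, le_trans ?_ hn.2.1, hn.2.2⟩
    gcongr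
  refine ⟨hne.mono hsub, fun ν hν k B hBm hBd hBu hdiam s hs c r hr0 hr => ?_⟩
  have hs0 : ∀ j, 0 ≤ s j := fun j => measureReal_nonneg.trans (hs j 0)
  have hWR' : (0 : ℝ) < W'.card := by exact_mod_cast hne.card_pos
  have hcell := fun j => cell (ν := ν) (W := W') hne hK hτ hKτ (ε := ε / 4) (by positivity)
    hM2 hgood (hBm j) (hdiam j) (hs j) c hr0 hr
  have hint : ∫ x, vf W' c r x ∂ν = ∑ j, ∫ x in B j, vf W' c r x ∂ν := by
    rw [← integral_iUnion_fintype hBm hBd (fun j => (vf_int W' c r ν).integrableOn), hBu,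
      Measure.restrict_univ]
  have hBsum : ∑ j, ν.real (B j) = 1 := by
    have h5 : ν.real (⋃ j ∈ (Finset.univ : Finset (Fin k)), B j) = ∑ j, ν.real (B j) :=
      measureReal_biUnion_finset (fun i _ j _ hij => hBd hij) (fun i _ => hBm i)
    rw [← h5]
    have h6 : (⋃ j ∈ (Finset.univ : Finset (Fin k)), B j) = univ := by
      rw [← hBu]; ext x; simp
    rw [h6]; simp
  have hmain : 2 * r * (1 - ∑ j, s j) - ε / 2 ≤ ∫ x, vf W' c r x ∂ν := by
    rw [hint]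
    refine le_trans ?_ (Finset.sum_le_sum fun j _ => hcell j)
    rw [Finset.sum_sub_distrib, ← Finset.mul_sum, ← Finset.mul_sum, Finset.sum_sub_distrib, hBsum]
    linarith
  have hsumW' : (W'.card : ℝ) * ∫ x, vf W' c r x ∂ν =
      ∑ n ∈ W', ν.real {x | ‖n • x - c‖ ≤ r} := by
    rw [vf_integral, ← mul_assoc, mul_inv_cancel₀ hWR'.ne', one_mul]
  have hle : ∑ n ∈ W', ν.real {x | ‖n • x - c‖ ≤ r} ≤ ∑ n ∈ W, ν.real {x | ‖n • x - c‖ ≤ r} :=
    Finset.sum_le_sum_of_subset_of_nonneg hsub fun _ _ _ => measureReal_nonneg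
  refine le_trans ?_ hle
  rw [← hsumW']
  have hS0 : 0 ≤ ∑ j, s j := Finset.sum_nonneg fun j _ => hs0 j
  have hWle : (W'.card : ℝ) ≤ W.card := by exact_mod_cast Finset.card_le_card hsub
  have hW0 : (0 : ℝ) ≤ W.card := Nat.cast_nonneg _
  have hv0 : 0 ≤ ∫ x, vf W' c r x ∂ν := integral_nonneg fun x => vf_nonneg _ _ _ _
  rcases le_or_gt (2 * r * (1 - ∑ j, s j) - ε / 2) 0 with h | h
  · have h5 : (2 * r * (1 - ∑ j, s j) - ε) * (W.card : ℝ) ≤ 0 :=
      mul_nonpos_of_nonpos_of_nonneg (by linarith) hW0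
    exact h5.trans (by positivity)
  · have h5 : (W'.card : ℝ) * (2 * r * (1 - ∑ j, s j) - ε / 2) ≤
        W'.card * ∫ x, vf W' c r x ∂ν := by gcongr
    refine le_trans ?_ h5
    have h6 : (1 - ε / 4) * (W.card : ℝ) * (2 * r * (1 - ∑ j, s j) - ε / 2) ≤
        W'.card * (2 * r * (1 - ∑ j, s j) - ε / 2) := by gcongr
    refine le_trans ?_ h6
    have h7 : 2 * r * (1 - ∑ j, s j) ≤ 1 := by
      nlinarith [mul_nonneg hr0 hS0]
    nlinarith [mul_nonneg hε.le hW0, mul_nonneg hε.le (mul_nonneg hε.le hW0),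
      mul_nonneg (mul_nonneg hε.le hW0) (sub_nonneg.2 h7)]

end Pool.Agent.N254.CL
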