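import Pool.Agent.W764.HL.Cluster

/-!
The cluster inequality, uniformly in the number of points, for points indexed by a finite type.
-/

set_option autoImplicit false

open MeasureTheory Filter Topology Set

namespace Pool.Agent.N254.CL

open Pool.Agent.W764.FB Pool.Agent.W764.HL

open Classical in
/-- the conclusion of the cluster inequality for `m` points -/
def Good (W : Finset ℕ) (K ε τ : ℝ) (m : ℕ) : Prop :=
  ∀ x : Fin m → T, (∀ i j, i ≠ j → τ ≤ ‖x i - x j‖ ∧ ‖x i - x j‖ ≤ K * τ) →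
    ∃ α : Fin m → ℝ, (∀ i, 0 ≤ α i ∧ α i ≤ 1) ∧ ∑ i, (1 - α i) ≤ 1 ∧
      ∀ i, ∀ c : T, ∀ r : ℝ, r ≤ 1 / 2 → (2 * r * α i - ε) * W.card ≤
        ((W.filter fun n => ‖n • x i - c‖ ≤ r).card : ℝ)

lemma cluster_unif {p q : ℕ} (hp : 2 ≤ p) (hq : 2 ≤ q) (hpq : Nat.Coprime p q) {K : ℝ}
    (hK : 1 ≤ K) {ε : ℝ} (hε : 0 < ε) (m0 : ℕ) : ∃ H0 : ℝ, 1 < H0 ∧ ∀ H : ℝ, H0 ≤ H →
      ∃ δ : ℝ, 0 < δ ∧ ∀ τ : ℝ, 0 < τ → τ < δ → (win p q (1 / τ) (H / τ)).Nonempty ∧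
        ∀ m : ℕ, m ≤ m0 → Good (win p q (1 / τ) (H / τ)) K ε τ m := by
  induction m0 with
  | zero =>
    obtain ⟨H0, h1, h2⟩ := cluster hp hq hpq 0 hK hε
    refine ⟨H0, h1, fun H hH => ?_⟩
    obtain ⟨δ, hδ, h3⟩ := h2 H hH
    refine ⟨δ, hδ, fun τ hτ hτδ => ?_⟩
    obtain ⟨h4, h5⟩ := h3 τ hτ hτδ
    refine ⟨h4, fun m hm => ?_⟩
    obtain rfl : m = 0 := by omega
    exact h5
  | succ k ih =>
    obtain ⟨H0, h1, h2⟩ := cluster hp hq hpq (k + 1) hK hε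
    obtain ⟨H1, h3, h4⟩ := ih
    refine ⟨max H0 H1, lt_of_lt_of_le h1 (le_max_left _ _), fun H hH => ?_⟩
    obtain ⟨δ, hδ, h5⟩ := h2 H ((le_max_left _ _).trans hH)
    obtain ⟨δ', hδ', h6⟩ := h4 H ((le_max_right _ _).trans hH)
    refine ⟨min δ δ', lt_min hδ hδ', fun τ hτ hτδ => ?_⟩
    obtain ⟨h7, h8⟩ := h5 τ hτ (hτδ.trans_le (min_le_left _ _))
    obtain ⟨-, h9⟩ := h6 τ hτ (hτδ.trans_le (min_le_right _ _))
    refine ⟨h7, fun m hm => ?_⟩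
    rcases Nat.lt_or_ge k m with h | h
    · obtain rfl : m = k + 1 := by omega
      exact h8
    · exact h9 m h

open Classical in
/-- points indexed by a finite set of integers -/
lemma good_finset {W : Finset ℕ} {K ε τ : ℝ} {ι : Type} (S : Finset ι)
    (h : Good W K ε τ S.card) (x : ι → T)
    (hx : ∀ i ∈ S, ∀ j ∈ S, i ≠ j → τ ≤ ‖x i - x j‖ ∧ ‖x i - x j‖ ≤ K * τ) :
    ∃ α : ι → ℝ, (∀ i ∈ S, 0 ≤ α i ∧ α i ≤ 1) ∧ ∑ i ∈ S, (1 - α i) ≤ 1 ∧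
      ∀ i ∈ S, ∀ c : T, ∀ r : ℝ, r ≤ 1 / 2 → (2 * r * α i - ε) * W.card ≤
        ((W.filter fun n => ‖n • x i - c‖ ≤ r).card : ℝ) := by
  obtain ⟨α, h1, h2, h3⟩ := h (fun k => x (S.equivFin.symm k)) (by
    intro i j hij
    refine hx _ (S.equivFin.symm i).2 _ (S.equivFin.symm j).2 fun h => hij ?_
    exact S.equivFin.symm.injective (Subtype.ext h))
  refine ⟨fun i => if hi : i ∈ S then α (S.equivFin ⟨i, hi⟩) else 0, ?_, ?_, ?_⟩
  · intro i hi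
    simp only [hi, dite_true]
    exact h1 _
  · refine le_trans (le_of_eq ?_) h2
    rw [← Finset.sum_coe_sort S]
    refine Fintype.sum_equiv S.equivFin _ _ fun i => ?_
    simp [i.2]
  · intro i hi c r hr
    simp only [hi, dite_true]
    have h4 := h3 (S.equivFin ⟨i, hi⟩) c r hr
    simpa using h4

end Pool.Agent.N254.CL
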